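import Pool.Agent.Y272.LC.Stm2

/-!
# Project LC (helper272): inverse branches along the critical orbit, escaping parameters (PUL)
-/

set_option autoImplicit false

open Complex Filter Topology Metric Set MeasureTheory

namespace Pool.Agent.Y888.LC.Pul

open Pool.Agent.H712R2 Pool.Agent.H713R2 Pool.Agent.H713R2.AR Pool.Agent.W677.Mar Pool.Agent.Y272.TY
open Pool.Agent.Y272.LC

/-- arithmetic of the returns -/
theorem comb {d n k : ℕ} {θ a : ℝ} (hd : 2 ≤ d) (hk1 : 1 ≤ k) (hkn : k ≤ n)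
    (h4 : ∀ k : ℕ, 1 ≤ k → k ≤ n → ∀ m : ℤ, 2 * a / (d : ℝ) ^ (n - k) < |(d : ℝ) ^ k * θ - θ - m|)
    (hm : ∃ m : ℤ, |(d : ℝ) ^ (n - k) * θ - m| < a) (hm' : ∃ m : ℤ, |(d : ℝ) ^ n * θ - m| < a)
    (hdvd : ∀ l : ℕ, l < n - k →
      (d : ℤ) ∣ ⌊(d : ℝ) ^ (k + l + 1) * θ - θ⌋ - ⌊(d : ℝ) ^ (l + 1) * θ - θ⌋) : False := by
  have hd0 : (0 : ℝ) < d := by exact_mod_cast (by omega : 0 < d)
  have key : ∀ r : ℕ, r ≤ n - k → ∃ m : ℤ,
      |(d : ℝ) ^ (n - r) * θ - (d : ℝ) ^ (n - k - r) * θ - m| ≤ 2 * a / (d : ℝ) ^ r := by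
    intro r
    induction r with
    | zero =>
      intro _
      obtain ⟨m, hm⟩ := hm
      obtain ⟨m', hm'⟩ := hm'
      refine ⟨m' - m, ?_⟩
      rw [pow_zero, div_one, Nat.sub_zero, Nat.sub_zero]
      rw [abs_lt] at hm hm'
      rw [abs_le]
      push_cast
      constructor <;> linarith [hm.1, hm.2, hm'.1, hm'.2]
    | succ r ih =>
      intro hr
      obtain ⟨m, hm⟩ := ih (by omega)
      obtain ⟨l, hl⟩ : ∃ l, n = k + l + r + 1 := ⟨n - k - r - 1, by omega⟩
      have e1 : n - r = k + l + 1 := by omega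
      have e2 : n - k - r = l + 1 := by omega
      have e3 : n - (r + 1) = k + l := by omega
      have e4 : n - k - (r + 1) = l := by omega
      rw [e1, e2] at hm
      rw [e3, e4]
      have h5 := h4 (k + l + 1) (by omega) (by omega)
      rw [show n - (k + l + 1) = r by omega] at h5
      have h6 := hdvd l (by omega)
      obtain ⟨u, hu⟩ : ∃ u : ℝ, u = (d : ℝ) ^ (l + 1) * θ - θ := ⟨_, rfl⟩
      obtain ⟨v, hv⟩ : ∃ v : ℝ, v = (d : ℝ) ^ (k + l + 1) * θ - θ := ⟨_, rfl⟩
      rw [← hu, ← hv] at h6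
      rw [← hv] at h5
      have h7 : |v - (u + m)| ≤ 2 * a / (d : ℝ) ^ r := by
        have : v - (u + m) = (d : ℝ) ^ (k + l + 1) * θ - (d : ℝ) ^ (l + 1) * θ - m := by
          rw [hu, hv]; ring
        rw [this]
        exact hm
      have h8 : ⌊v⌋ = ⌊u⌋ + m := by
        rw [← Int.floor_add_intCast]
        rcases lt_trichotomy ⌊v⌋ ⌊u + m⌋ with h9 | h9 | h9
        · exfalso
          have h10 : v < ⌊u + m⌋ := Int.floor_lt.1 h9
          have h11 := Int.floor_le (u + m)
          have h12 := h5 ⌊u + m⌋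
          have h13 : |v - ⌊u + m⌋| ≤ |v - (u + m)| := by
            rw [abs_of_nonpos (by linarith), abs_of_nonpos (by linarith)]
            linarith
          linarith
        · exact h9
        · exfalso
          have h10 : u + m < ⌊v⌋ := Int.floor_lt.1 h9
          have h11 := Int.floor_le v
          have h12 := h5 ⌊v⌋
          have h13 : |v - ⌊v⌋| ≤ |v - (u + m)| := by
            rw [abs_of_nonneg (by linarith), abs_of_nonneg (by linarith)]
            linarith
          linarith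
      rw [h8, add_sub_cancel_left] at h6
      obtain ⟨m'', hm''⟩ := h6
      refine ⟨m'', ?_⟩
      have h9 : (d : ℝ) * ((d : ℝ) ^ (k + l) * θ - (d : ℝ) ^ l * θ - m'') =
          (d : ℝ) ^ (k + l + 1) * θ - (d : ℝ) ^ (l + 1) * θ - m := by
        rw [hm'']
        push_cast
        ring
      rw [← h9, abs_mul, abs_of_pos hd0] at hm
      rw [pow_succ, ← div_div, le_div_iff₀ hd0, mul_comm]
      exact hm
  obtain ⟨m, hm⟩ := key (n - k) le_rfl
  rw [show n - (n - k) = k by omega, Nat.sub_self, pow_zero, one_mul] at hm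
  exact absurd hm (not_le.2 (h4 k hk1 hkn m))

/-- the chain of the inverse branches -/
noncomputable def HH (g : ℤ → ℂ → ℂ) (J : ℕ → ℤ) (n : ℕ) : ℕ → ℂ → ℂ
  | 0 => fun z => z
  | i + 1 => fun z => g (J (n - (i + 1))) (HH g J n i z)

theorem t (_hG : St_Grn) (hB : St_Br) : St_Pul := by
  intro d Φ hd hΦ c θ G hE w δ a hδ ha h1 h2 h3 n hn hw h4
  obtain ⟨hcl, g, hg⟩ := hB d Φ hd hΦ c θ G hE
  have hd1 : (1 : ℝ) < d := by exact_mod_cast (by omega : 1 < d)
  have hd0 : (0 : ℝ) < d := by linarith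
  have hG0 := hE.G0
  have hGd : G / d < G := div_lt_self hG0 hd1
  have hpow : ∀ (l : ℕ) (s : ℝ), G ≤ s → G ≤ (d : ℝ) ^ l * s := by
    intro l s hs
    have h5 : (1 : ℝ) ≤ (d : ℝ) ^ l := one_le_pow₀ hd1.le
    nlinarith
  have hpow' : ∀ (l : ℕ) (s : ℝ), G ≤ s → G < (d : ℝ) ^ (l + 1) * s := by
    intro l s hs
    have h5 : (1 : ℝ) < (d : ℝ) ^ (l + 1) := one_lt_pow₀ hd1 (by omega)
    nlinarith
  have hmap : ∀ s t : ℝ, G / d < s → fc d c (Φ c (zt s t)) = Φ c (zt (d * s) (d * t)) := by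
    intro s t hs
    rw [hΦ.map c (zt s t) (by rw [hE.crit]; simpa [zt] using hs)]
    congr 1
    unfold zt
    push_cast
    ring
  have hit : ∀ (l : ℕ) (s t : ℝ), G ≤ s →
      (fc d c)^[l] (Φ c (zt s t)) = Φ c (zt ((d : ℝ) ^ l * s) ((d : ℝ) ^ l * t)) := by
    intro l s t hs
    induction l with
    | zero => simp
    | succ l ih =>
      rw [Function.iterate_succ_apply', ih, hmap _ _ (hGd.trans_le (hpow l s hs))]
      congr 2 <;> ring
  have hz : ∀ l, (fc d c)^[l] c = Φ c (zt ((d : ℝ) ^ l * G) ((d : ℝ) ^ l * θ)) := by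
    intro l
    have h5 := hit l G θ le_rfl
    rw [hE.val] at h5
    exact h5
  obtain ⟨J, hJd⟩ : ∃ J : ℕ → ℤ, J = fun k => ⌊(d : ℝ) ^ (k + 1) * θ - θ⌋ := ⟨_, rfl⟩
  have hJ : ∀ (l : ℕ) (s : ℝ), G ≤ s →
      g (J l) (Φ c (zt ((d : ℝ) ^ (l + 1) * s) ((d : ℝ) ^ (l + 1) * θ))) =
        Φ c (zt ((d : ℝ) ^ l * s) ((d : ℝ) ^ l * θ)) := by
    intro l s hs
    have h6 := Int.floor_le ((d : ℝ) ^ (l + 1) * θ - θ)
    have h7 := Int.lt_floor_add_one ((d : ℝ) ^ (l + 1) * θ - θ)
    have h8 := h3 (l + 1) ⌊(d : ℝ) ^ (l + 1) * θ - θ⌋ (by omega)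
    have hJl : J l = ⌊(d : ℝ) ^ (l + 1) * θ - θ⌋ := by rw [hJd]
    rw [← hJl] at h6 h7 h8
    have h9 : (J l : ℝ) ≠ (d : ℝ) ^ (l + 1) * θ - θ := by
      intro h
      apply h8
      rw [h]
      ring
    have h10 := lt_of_le_of_ne h6 h9
    rw [hg.ray (J l) _ _ (hpow' l s hs) (by linarith) (by linarith)]
    congr 2 <;> field_simp <;> ring
  obtain ⟨H, hH⟩ : ∃ H, H = HH g J n := ⟨_, rfl⟩
  have H0 : ∀ z, H 0 z = z := fun z => by rw [hH]; rfl
  have HS : ∀ i z, H (i + 1) z = g (J (n - (i + 1))) (H i z) := fun i z => by rw [hH]; rfl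
  -- the branches avoid the slit
  have hQ : ∀ i, i < n → ∀ z ∈ ball w δ, H i z ∉ Sl Φ c θ G := by
    intro i
    induction i using Nat.strong_induction_on with
    | _ i ih =>
      intro hi z hz1 hz2
      rcases i with _ | i0
      · obtain ⟨s, hs, hs2⟩ := hz2
        rw [H0] at hs2
        exact h1 s hs (hs2 ▸ hz1)
      obtain ⟨s, hs, hs2⟩ := hz2
      have hf : ∀ m, m ≤ i0 → fc d c (H (m + 1) z) = H m z := by
        intro m hm
        rw [HS]
        exact hg.inv _ _ (ih m (by omega) (by omega) z hz1)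
      have hl : ∀ l, l ≤ i0 + 1 → H (i0 + 1 - l) z = Φ c (zt ((d : ℝ) ^ l * s) ((d : ℝ) ^ l * θ)) := by
        intro l
        induction l with
        | zero =>
          intro _
          rw [Nat.sub_zero, hs2]
          simp
        | succ l ih2 =>
          intro hl
          obtain ⟨m, hm⟩ : ∃ m, i0 = m + l := ⟨i0 - l, by omega⟩
          have e1 : i0 + 1 - l = m + 1 := by omega
          have e2 : i0 + 1 - (l + 1) = m := by omega
          have h5 := ih2 (by omega)
          rw [e1] at h5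
          rw [e2, ← hf m (by omega), h5, hmap _ _ (hGd.trans_le (hpow l s hs))]
          congr 2 <;> ring
      refine comb (k := n - (i0 + 1)) hd (by omega) (by omega) h4 ?_ ?_ ?_
      · have h5 := hl (i0 + 1) le_rfl
        rw [Nat.sub_self, H0] at h5
        rw [show n - (n - (i0 + 1)) = i0 + 1 by omega]
        exact h2 _ _ (hGd.trans_le (hpow (i0 + 1) s hs)) (h5 ▸ hz1)
      · exact h2 _ _ (hGd.trans_le (hpow n G le_rfl)) (hz n ▸ hw)
      · intro l hl2
        obtain ⟨m, hm⟩ : ∃ m, i0 = m + l := ⟨i0 - l, by omega⟩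
        have e1 : i0 + 1 - l = m + 1 := by omega
        have e2 : i0 + 1 - (l + 1) = m := by omega
        have h5 := hl l (by omega)
        have h6 := hl (l + 1) (by omega)
        rw [e1, HS] at h5
        rw [e2] at h6
        have h7 := hJ l s hs
        rw [← h6] at h7
        have h8 := ih m (by omega) (by omega) z hz1
        have h9 := (hg.disj _ _ _ h8 _ h8 (h5.trans h7.symm)).1
        have e3 : n - (m + 1) = n - (i0 + 1) + l := by omega
        rw [e3, hJd] at h9
        exact h9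
  have hU : IsOpen (Sl Φ c θ G)ᶜ := hcl.isOpen_compl
  have hhol : ∀ i, i ≤ n → DifferentiableOn ℂ (H i) (ball w δ) := by
    intro i
    induction i with
    | zero =>
      intro _
      have : H 0 = fun z => z := funext H0
      rw [this]
      exact differentiableOn_id
    | succ i ih =>
      intro hi
      have : H (i + 1) = fun z => g (J (n - (i + 1))) (H i z) := funext (HS i)
      rw [this]
      exact (hg.hol _).comp (ih (by omega)) (fun z hz => hQ i (by omega) z hz)
  have hinv : ∀ i, i ≤ n → ∀ z ∈ ball w δ, (fc d c)^[i] (H i z) = z := by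
    intro i
    induction i with
    | zero =>
      intro _ z _
      rw [H0]
      rfl
    | succ i ih =>
      intro hi z hz
      rw [Function.iterate_succ_apply, HS, hg.inv _ _ (hQ i (by omega) z hz)]
      exact ih (by omega) z hz
  have hval : ∀ i, i ≤ n → H i ((fc d c)^[n] c) = (fc d c)^[n - i] c := by
    intro i
    induction i with
    | zero =>
      intro _
      rw [H0]
      rfl
    | succ i ih =>
      intro hi
      obtain ⟨m, hm⟩ : ∃ m, n = m + (i + 1) := ⟨n - (i + 1), by omega⟩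
      have e1 : n - i = m + 1 := by omega
      have e2 : n - (i + 1) = m := by omega
      rw [HS, ih (by omega), e1, e2, hz, hz]
      exact hJ m G le_rfl
  refine ⟨H n, hhol n le_rfl, hinv n le_rfl, ?_⟩
  rw [hval n le_rfl, Nat.sub_self]
  rfl

end Pool.Agent.Y888.LC.Pul
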